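import Pool.Agent.H61ND.Van

/-!
# Spectral sequences of the type of the Adams spectral sequence
-/

set_option autoImplicit false

namespace Pool.Agent.H61ND

open Pool.Agent.W624 Pool.Agent.W624.NS

/-- The groups `E_r^{s,t}` and the differentials `d_r : E_r^{s,t} → E_r^{s+r,t+r-1}`. -/
structure Pages where
  E : ℕ → ℕ → ℕ → Type
  [group : ∀ r s t, AddCommGroup (E r s t)]
  d : ∀ r s t s' t' : ℕ, s + r = s' → t + r = t' + 1 → E r s t →+ E r s' t'

attribute [instance] Pages.group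

/-- `y` is a cycle of the differential `d_r` -/
def Pages.IsCycle (P : Pages) (r s t : ℕ) (y : P.E r s t) : Prop :=
  ∀ (s' t' : ℕ) (h : s + r = s') (h' : t + r = t' + 1), P.d r s t s' t' h h' y = 0

/-- `y` is zero or hit by the differential `d_r`: it is `d_r z` for some `z` -/
def Pages.IsHit (P : Pages) (r s t : ℕ) (y : P.E r s t) : Prop :=
  y = 0 ∨ ∃ (s₀ t₀ : ℕ) (h : s₀ + r = s) (h' : t₀ + r = t + 1) (z : P.E r s₀ t₀),
    P.d r s₀ t₀ s t h h' z = y

/-- The differentials have square zero. -/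
def Pages.SquareZero (P : Pages) : Prop :=
  ∀ (r s t s' t' s'' t'' : ℕ) (h₁ : s + r = s') (h₂ : t + r = t' + 1) (h₃ : s' + r = s'')
    (h₄ : t' + r = t'' + 1) (y : P.E r s t), 2 ≤ r →
    P.d r s' t' s'' t'' h₃ h₄ (P.d r s t s' t' h₁ h₂ y) = 0

/-- The page `E_{r+1}` is the homology of the page `E_r`: the map `next` from the cycles in `E_r`
onto `E_{r+1}`, the kernel of which are the boundaries. -/
structure Turns (P : Pages) where
  next : ∀ (r s t : ℕ) (y : P.E r s t), P.IsCycle r s t y → P.E (r + 1) s t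
  next_add : ∀ (r s t : ℕ) (y y' : P.E r s t) (hy : P.IsCycle r s t y)
    (hy' : P.IsCycle r s t y') (hyy : P.IsCycle r s t (y + y')), 2 ≤ r →
    next r s t (y + y') hyy = next r s t y hy + next r s t y' hy'
  next_surj : ∀ (r s t : ℕ) (z : P.E (r + 1) s t), 2 ≤ r →
    ∃ (y : P.E r s t) (hy : P.IsCycle r s t y), next r s t y hy = z
  next_zero : ∀ (r s t : ℕ) (y : P.E r s t) (hy : P.IsCycle r s t y), 2 ≤ r →
    (next r s t y hy = 0 ↔ P.IsHit r s t y)

/-- The page `E_2` is `Ext`: the class `rep x` in `E_2^{s,t}` of a homogeneous cocycle `x` is zero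
if and only if `x` is a coboundary. -/
structure Start (P : Pages) where
  rep : ∀ (s t : ℕ) (x : Z s), IsHom s t x.1 → P.E 2 s t
  rep_add : ∀ (s t : ℕ) (x y z : Z s) (hx : IsHom s t x.1) (hy : IsHom s t y.1)
    (hz : IsHom s t z.1), z.1 = x.1 + y.1 → rep s t z hz = rep s t x hx + rep s t y hy
  rep_surj : ∀ (s t : ℕ) (y : P.E 2 s t), ∃ (x : Z s) (hx : IsHom s t x.1), rep s t x hx = y
  rep_zero : ∀ (s t : ℕ) (x : Z s) (hx : IsHom s t x.1), rep s t x hx = 0 ↔ IsB s x.1

/-- The multiplication by `h₀` on all pages, compatible with the differentials and the maps `next`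
and equal to the one of `Ext` on the page `E_2`. -/
structure MulH (P : Pages) (T : Turns P) (S : Start P) where
  h : ∀ r s t : ℕ, P.E r s t →+ P.E r (s + 1) (t + 1)
  h_d : ∀ (r s t s' t' : ℕ) (h₁ : s + r = s') (h₂ : t + r = t' + 1) (h₃ : s + 1 + r = s' + 1)
    (h₄ : t + 1 + r = t' + 1 + 1) (y : P.E r s t), 2 ≤ r →
    P.d r (s + 1) (t + 1) (s' + 1) (t' + 1) h₃ h₄ (h r s t y) = h r s' t' (P.d r s t s' t' h₁ h₂ y)
  h_rep : ∀ (s t : ℕ) (x : Z s) (hx : IsHom s t x.1) (hx' : IsHom (s + 1) (t + 1) (h0Z s x).1),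
    h 2 s t (S.rep s t x hx) = S.rep (s + 1) (t + 1) (h0Z s x) hx'
  h_next : ∀ (r s t : ℕ) (y : P.E r s t) (hy : P.IsCycle r s t y)
    (hy' : P.IsCycle r (s + 1) (t + 1) (h r s t y)), 2 ≤ r →
    h (r + 1) s t (T.next r s t y hy) = T.next r (s + 1) (t + 1) (h r s t y) hy'

/-- Bruner's formula `d₂ (Sq⁰ x) = h₀ Sq¹ x` for classes `x` of even internal degree `t`. -/
def Bruner (P : Pages) (S : Start P) : Prop :=
  ∀ (s t : ℕ) (x : Z s) (_ : IsHom s t x.1) (hx₁ : IsHom s (2 * t) (sqZ s x).1)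
    (hx₂ : IsHom (s + 2) (2 * t + 1) (h0Z (s + 1) (Sq1 s x)).1), Even t →
    ∀ (h₁ : s + 2 = s + 2) (h₂ : 2 * t + 2 = 2 * t + 1 + 1),
      P.d 2 s (2 * t) (s + 2) (2 * t + 1) h₁ h₂ (S.rep s (2 * t) (sqZ s x) hx₁) =
        S.rep (s + 2) (2 * t + 1) (h0Z (s + 1) (Sq1 s x)) hx₂

/-- A spectral sequence which starts with `E_2^{s,t} = Ext^{s,t}`, with a multiplication by `h₀`
and with Bruner's formula; for instance the Adams spectral sequence of the sphere. -/
structure AdamsSequence extends Pages where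
  squareZero : toPages.SquareZero
  turns : Turns toPages
  start : Start toPages
  mulH : MulH toPages turns start
  bruner : Bruner toPages start

/-- the class in `E_2^{s,t}` of a homogeneous cocycle -/
abbrev AdamsSequence.rep (A : AdamsSequence) (s t : ℕ) (x : Z s) (hx : IsHom s t x.1) :
    A.E 2 s t := A.start.rep s t x hx

/-- multiplication by `h₀` -/
abbrev AdamsSequence.h (A : AdamsSequence) (r s t : ℕ) : A.E r s t →+ A.E r (s + 1) (t + 1) :=
  A.mulH.h r s t

/-- The class of the cocycle `x` lives to `E_r` and has there the image `y`. -/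
inductive Lives (A : AdamsSequence) (s t : ℕ) (x : Z s) (hx : IsHom s t x.1) :
    (r : ℕ) → A.E r s t → Prop
  | start : Lives A s t x hx 2 (A.rep s t x hx)
  | step (r : ℕ) (y : A.E r s t) (hy : A.IsCycle r s t y) :
      Lives A s t x hx r y → Lives A s t x hx (r + 1) (A.turns.next r s t y hy)

variable (A : AdamsSequence)

theorem Lives.two_le {A : AdamsSequence} {s t : ℕ} {x : Z s} {hx : IsHom s t x.1} {r : ℕ}
    {y : A.E r s t} (h : Lives A s t x hx r y) : 2 ≤ r := by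
  induction h with
  | start => exact le_rfl
  | step r y hy _ ih => exact ih.trans (Nat.le_succ r)

theorem page_zero {s t : ℕ} (h0 : ∀ x : Z s, IsHom s t x.1 → IsB s x.1) :
    ∀ r, 2 ≤ r → ∀ y : A.E r s t, y = 0 := by
  intro r hr
  induction r, hr using Nat.le_induction with
  | base =>
    intro y
    obtain ⟨x, hx, rfl⟩ := A.start.rep_surj s t y
    exact (A.start.rep_zero s t x hx).2 (h0 x hx)
  | succ r hr ih =>
    intro z
    obtain ⟨y, hy, rfl⟩ := A.turns.next_surj r s t z hr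
    rw [A.turns.next_zero r s t y hy hr]
    exact Or.inl (ih y)

/-- no differential hits anything -/
theorem hit_zero {s t r : ℕ}
    (h0 : ∀ s₀ t₀ : ℕ, s₀ + r = s → t₀ + r = t + 1 → ∀ z : A.E r s₀ t₀, z = 0)
    (y : A.E r s t) : A.IsHit r s t y ↔ y = 0 := by
  constructor
  · rintro (h | ⟨s₀, t₀, h, h', z, rfl⟩)
    · exact h
    · rw [h0 s₀ t₀ h h' z, map_zero]
  · exact Or.inl

theorem lives_zero {s t : ℕ} {x : Z s} {hx : IsHom s t x.1}
    (h0 : ∀ r, 2 ≤ r → ∀ s₀ t₀ : ℕ, s₀ + r = s → t₀ + r = t + 1 → ∀ z : A.E r s₀ t₀, z = 0)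
    {r : ℕ} {y : A.E r s t} (h : Lives A s t x hx r y) : y = 0 ↔ IsB s x.1 := by
  induction h with
  | start => exact A.start.rep_zero s t x hx
  | step r y hy hl ih =>
    rw [A.turns.next_zero r s t y hy hl.two_le, hit_zero A (h0 r hl.two_le), ih]

theorem lives_zero3 {s t : ℕ} {x : Z s} {hx : IsHom s t x.1}
    (h0 : ∀ r, 3 ≤ r → ∀ s₀ t₀ : ℕ, s₀ + r = s → t₀ + r = t + 1 → ∀ z : A.E r s₀ t₀, z = 0)
    {r : ℕ} {y : A.E r s t} (h : Lives A s t x hx r y) (hr : 3 ≤ r) :
    y = 0 ↔ A.IsHit 2 s t (A.rep s t x hx) := by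
  induction h with
  | start => omega
  | step r y hy hl ih =>
    rw [A.turns.next_zero r s t y hy hl.two_le]
    by_cases h3 : 3 ≤ r
    · rw [hit_zero A (h0 r h3), ih h3]
    · cases hl with
      | start => rfl
      | step r y hy' hl' =>
        exfalso
        have := hl'.two_le
        omega

theorem cycle_h {s t r : ℕ} (hr : 2 ≤ r) {y : A.E r s t} (hy : A.IsCycle r s t y) :
    A.IsCycle r (s + 1) (t + 1) (A.h r s t y) := by
  intro s' t' h h'
  obtain ⟨s1, rfl⟩ : ∃ s1, s' = s1 + 1 := ⟨s + r, by omega⟩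
  obtain ⟨t1, rfl⟩ : ∃ t1, t' = t1 + 1 := ⟨t + r - 1, by omega⟩
  rw [A.mulH.h_d r s t s1 t1 (by omega) (by omega) h h' y hr, hy s1 t1 (by omega) (by omega), map_zero]

theorem lives_h {s t : ℕ} {x : Z s} {hx : IsHom s t x.1} {r : ℕ} {y : A.E r s t}
    (h : Lives A s t x hx r y) :
    Lives A (s + 1) (t + 1) (h0Z s x) (isHom_h0 x hx) r (A.h r s t y) := by
  induction h with
  | start =>
    rw [A.mulH.h_rep s t x hx (isHom_h0 x hx)]
    exact Lives.start
  | step r y hy hl ih =>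
    rw [A.mulH.h_next r s t y hy (cycle_h A hl.two_le hy) hl.two_le]
    exact Lives.step r _ _ ih

end Pool.Agent.H61ND
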