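import Pool.Agent.W624.NDst3
import Pool.Agent.Q171.DG.Fin

/-!
# Vanishing of `Ext` in the stems `2 ^ j t - s` below the line `s`
-/

set_option autoImplicit false

namespace Pool.Agent.H61ND

open Pool.Agent.W624 Pool.Agent.W624.NS Finset MvPolynomial

open Pool.Agent.Q171.DG (al al_rec al_zero al_two al_two1 al_add al_le)

theorem al_pred_pow (j t : ℕ) (ht : 0 < t) : j ≤ al (2 ^ j * t - 1) := by
  induction j with
  | zero => exact Nat.zero_le _
  | succ j ih =>
    have h0 : 0 < 2 ^ j * t := by positivity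
    have h1 : 2 ^ (j + 1) * t - 1 = 2 * (2 ^ j * t - 1) + 1 := by
      have : 2 ^ (j + 1) * t = 2 * (2 ^ j * t) := by ring
      omega
    rw [h1, al_two1]
    omega

theorem al_sub (j t k : ℕ) (ht : 0 < t) (hk : 1 ≤ k) (hkj : k ≤ 2 ^ j * t) :
    j + 1 ≤ al (2 ^ j * t - k) + k := by
  have h1 := al_pred_pow j t ht
  have h2 : 2 ^ j * t - 1 = (2 ^ j * t - k) + (k - 1) := by omega
  have h3 := al_add (2 ^ j * t - k) (k - 1)
  have h4 := al_le (k - 1)
  rw [h2] at h1
  omega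

theorem vanish (s t : ℕ) (h1 : s < al t) (h2 : 2 * s ≤ al t + 1) (x : Z s)
    (hx : IsHom s t x.1) : IsB s x.1 := by
  have hPX := Pool.Agent.Q171.DG.PX_zero h1 h2
  have hd : ∑ j : Fin (s + 2), Stz.cf s j (x.1 : ND.Cob s) = 0 := by
    have h3 := (dC_eq s x.1).symm.trans x.2
    have h4 := ND.dC_apply s (x.1 : ND.Cob s)
    exact h4.symm.trans h3
  cases s with
  | zero => exact Pool.Agent.Q171.DG.van0 hPX hx hd
  | succ n =>
    obtain ⟨y, hy⟩ := Pool.Agent.Q171.DG.vanS hPX hx hd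
    refine ⟨y, (dC_eq n y).trans ?_⟩
    rw [ND.dC_apply]
    exact hy

/-- below the line `s`, there is nothing in the stem `2 ^ j t - s` -/
theorem sparse (s j t k : ℕ) (hs : s ≤ j) (hs2 : 2 * s ≤ j + 3) (ht : 0 < t) (hk : 1 ≤ k)
    (hks : k ≤ s) (x : Z (s - k)) (hx : IsHom (s - k) (2 ^ j * t - k) x.1) : IsB (s - k) x.1 := by
  have h0 : k ≤ 2 ^ j * t := by
    have h1 : j < 2 ^ j := Nat.lt_two_pow_self
    have h2 : 2 ^ j * 1 ≤ 2 ^ j * t := Nat.mul_le_mul_left _ ht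
    omega
  have h1 := al_sub j t k ht hk h0
  exact vanish _ _ (by omega) (by omega) x hx

/-! ### homogeneity -/

theorem hom_X (s : ℕ) (a : Fin s) (n : ℕ) :
    IsWeightedHomogeneous (fun p : Fin s × ℕ => 2 ^ (p.2 + 1) - 1)
      (X (a, n) : MvPolynomial (Fin s × ℕ) (ZMod 2)) (2 ^ (n + 1) - 1) :=
  isWeightedHomogeneous_X (ZMod 2) (fun p : Fin s × ℕ => 2 ^ (p.2 + 1) - 1) (a, n)

theorem coface_hom {s t : ℕ} (j : Fin (s + 2)) {x : ND.Cob s}
    (hx : IsWeightedHomogeneous (fun p : Fin s × ℕ => 2 ^ (p.2 + 1) - 1) x t) :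
    IsWeightedHomogeneous (fun p : Fin (s + 1) × ℕ => 2 ^ (p.2 + 1) - 1) (ND.coface s j x) t := by
  have := Stz.IW.aeval' (AddMonoidHom.id ℕ) (ND.coface s j)
    (w := fun p : Fin s × ℕ => 2 ^ (p.2 + 1) - 1)
    (w' := fun p : Fin (s + 1) × ℕ => 2 ^ (p.2 + 1) - 1) ?_ hx
  · exact this
  · rintro ⟨a, n⟩
    rw [ND.coface, aeval_X]
    dsimp only
    split_ifs with h1 h2
    · exact hom_X _ _ _
    · exact hom_X _ _ _
    · apply IsWeightedHomogeneous.sum
      intro i hi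
      rw [Finset.mem_range] at hi
      have e1 : IsWeightedHomogeneous (fun p : Fin (s + 1) × ℕ => 2 ^ (p.2 + 1) - 1)
          (if i = n + 1 then (1 : ND.Cob (s + 1)) else X (a.castSucc, n - i))
          (2 ^ (n + 1 - i) - 1) := by
        split_ifs with h
        · subst h
          simpa using isWeightedHomogeneous_one (ZMod 2)
            (fun p : Fin (s + 1) × ℕ => 2 ^ (p.2 + 1) - 1)
        · have e : n + 1 - i = n - i + 1 := by omega
          rw [e]
          exact hom_X _ _ _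
      have e2 : IsWeightedHomogeneous (fun p : Fin (s + 1) × ℕ => 2 ^ (p.2 + 1) - 1)
          (if i = 0 then (1 : ND.Cob (s + 1)) else X (a.succ, i - 1))
          (2 ^ i - 1) := by
        split_ifs with h
        · subst h
          simpa using isWeightedHomogeneous_one (ZMod 2)
            (fun p : Fin (s + 1) × ℕ => 2 ^ (p.2 + 1) - 1)
        · have h3 := hom_X (s + 1) a.succ (i - 1)
          have e : i - 1 + 1 = i := by omega
          rwa [e] at h3
      have e3 := (e1.pow (2 ^ i)).mul e2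
      have e4 : 2 ^ i • (2 ^ (n + 1 - i) - 1) + (2 ^ i - 1) = 2 ^ (n + 1) - 1 := by
        have h5 : 1 ≤ 2 ^ (n + 1 - i) := Nat.one_le_two_pow
        have h6 : 1 ≤ 2 ^ i := Nat.one_le_two_pow
        have h7 : 2 ^ i * 2 ^ (n + 1 - i) = 2 ^ (n + 1) := by
          rw [← pow_add]
          congr 1
          omega
        rw [smul_eq_mul, Nat.mul_sub, h7, mul_one]
        have h8 : 2 ^ i ≤ 2 ^ (n + 1) := Nat.pow_le_pow_right (by norm_num) (by omega)
        omega
      rw [e4] at e3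
      exact e3

theorem isHom_sq {s t : ℕ} (x : Z s) (hx : IsHom s t x.1) : IsHom s (2 * t) (sqZ s x).1 := by
  have h := isHom_iter x hx 1
  rw [pow_one] at h
  exact h

theorem isHom_h0 {s t : ℕ} (x : Z s) (hx : IsHom s t x.1) :
    IsHom (s + 1) (t + 1) (h0Z s x).1 := by
  have h1 : (h0Z s x).1 = ND.mulH0 s x.1 := mulH0_eq s x.1
  have h2 : IsWeightedHomogeneous (fun p : Fin (s + 1) × ℕ => 2 ^ (p.2 + 1) - 1)
      (ND.mulH0 s x.1) (t + 1) := by
    have h3 : ND.mulH0 s x.1 = rename (fun p : Fin s × ℕ => (p.1.castSucc, p.2)) x.1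
      * X (Fin.last s, 0) := rfl
    rw [h3]
    refine IsWeightedHomogeneous.mul ?_ (by simpa using hom_X (s + 1) (Fin.last s) 0)
    have := Stz.IW.aeval' (AddMonoidHom.id ℕ) (rename (fun p : Fin s × ℕ => (p.1.castSucc, p.2)))
      (w := fun p : Fin s × ℕ => 2 ^ (p.2 + 1) - 1)
      (w' := fun p : Fin (s + 1) × ℕ => 2 ^ (p.2 + 1) - 1) ?_ hx
    · exact this
    · rintro ⟨a, n⟩
      rw [rename_X]
      exact hom_X _ _ _
  exact h1 ▸ h2

theorem isHom_Sq1 {s t : ℕ} (x : Z s) (hx : IsHom s t x.1) :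
    IsHom (s + 1) (2 * t) (Sq1 s x).1 := by
  have h1 : (Sq1 s x).1 = ND.sq1 s x.1 := cupSq_eq s x.1
  have h2 : IsWeightedHomogeneous (fun p : Fin (s + 1) × ℕ => 2 ^ (p.2 + 1) - 1)
      (ND.sq1 s x.1) (2 * t) := by
    have h3 : ND.sq1 s x.1 = ∑ p ∈ (univ : Finset (Fin (s + 2) × Fin (s + 2))).filter
      (fun p => p.1 < p.2 ∧ (p.1 : ℕ) % 2 = (p.2 : ℕ) % 2),
      ND.coface s p.1 x.1 * ND.coface s p.2 x.1 := rfl
    rw [h3]
    apply IsWeightedHomogeneous.sum
    intro p _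
    rw [two_mul]
    exact (coface_hom p.1 hx).mul (coface_hom p.2 hx)
  exact h1 ▸ h2

end Pool.Agent.H61ND
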